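import Mathlib

/-!
# Removable sets for convexity in the plane

The plane is `ℝ × ℝ`; continuity and convexity are the same as for the Euclidean plane.
-/

set_option autoImplicit false

open Set

namespace Pool.Agent.R222.Dust

/-- `f` is locally convex on `U`: every point of `U` has an open convex neighbourhood inside `U`
on which `f` is convex. -/
def LocConvexOn (f : ℝ × ℝ → ℝ) (U : Set (ℝ × ℝ)) : Prop :=
  ∀ z ∈ U, ∃ V : Set (ℝ × ℝ), IsOpen V ∧ Convex ℝ V ∧ z ∈ V ∧ V ⊆ U ∧ ConvexOn ℝ V f

/-- `A` is c-removable: every continuous function on the plane which is locally convex off `A` is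
convex. -/
def CRemovable (A : Set (ℝ × ℝ)) : Prop :=
  ∀ f : ℝ × ℝ → ℝ, Continuous f → LocConvexOn f Aᶜ → ConvexOn ℝ univ f

/-- `A` is intervally thin in direction `v`: every segment parallel to `v` can be moved off `A` by
an arbitrarily small displacement of its end points. -/
def IntervallyThin (A : Set (ℝ × ℝ)) (v : ℝ × ℝ) : Prop :=
  ∀ x y : ℝ × ℝ, (∃ t : ℝ, x - y = t • v) → ∀ ε > 0,
    ∃ x' ∈ Metric.ball x ε, ∃ y' ∈ Metric.ball y ε, Disjoint (segment ℝ x' y') A

end Pool.Agent.R222.Dust
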