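import Mathlib

set_option autoImplicit false

open Set MeasureTheory Filter Topology

namespace Pool.Agent.R222.Dust

/-- Touching a non-convex function from above by lines, after a small strictly convex correction. -/
lemma contact {Ψ : ℝ → ℝ} (hΨ : Continuous Ψ) {a b m : ℝ} (ham : a < m) (hmb : m < b)
    (hbad : (b - m) * Ψ a + (m - a) * Ψ b < (b - a) * Ψ m) :
    ∃ ε > 0, ∃ κ > 0, ∃ c : ℝ, ∃ η > 0, ∀ p ∈ Ioo (c - η) (c + η),
      ∃ t, a + κ ≤ t ∧ t ≤ b - κ ∧
        ∀ y ∈ Icc a b, Ψ y + ε * y ^ 2 ≤ Ψ t + ε * t ^ 2 + p * (y - t) := by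
  have hab : a < b := ham.trans hmb
  set D0 := (b - a) * Ψ m - ((b - m) * Ψ a + (m - a) * Ψ b) with hD0
  have hD0pos : 0 < D0 := by linarith
  have hprod : 0 < (b - a) * (b - m) * (m - a) := by
    have h1 : 0 < b - a := by linarith
    have h2 : 0 < b - m := by linarith
    have h3 : 0 < m - a := by linarith
    positivity
  set ε := D0 / (2 * ((b - a) * (b - m) * (m - a))) with hε
  have hεpos : 0 < ε := by positivity
  have hεmul : ε * ((b - a) * (b - m) * (m - a)) = D0 / 2 := by
    rw [hε]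
    generalize (b - a) * (b - m) * (m - a) = q at hprod ⊢
    field_simp
  set V : ℝ → ℝ := fun y => Ψ y + ε * y ^ 2 with hV
  have hVc : Continuous V := by fun_prop
  have hVdef : (b - a) * V m - ((b - m) * V a + (m - a) * V b) = D0 / 2 := by
    have : (b - a) * V m - ((b - m) * V a + (m - a) * V b)
        = D0 - ε * ((b - a) * (b - m) * (m - a)) := by
      simp only [hV, hD0]; ring
    rw [this, hεmul]; ring
  have hba : 0 < b - a := by linarith
  set c := (V b - V a) / (b - a) with hc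
  have hcmul : c * (b - a) = V b - V a := by rw [hc]; field_simp
  set U : ℝ → ℝ := fun y => V y - V a - c * (y - a) with hU
  have hUc : Continuous U := by fun_prop
  have hUa : U a = 0 := by simp [hU]
  have hUb : U b = 0 := by simp only [hU]; rw [hcmul]; ring
  set D := U m with hD
  have hDpos : 0 < D := by
    have h1 : (b - a) * U m = D0 / 2 := by
      have : (b - a) * U m = (b - a) * V m - (b - a) * V a - (c * (b - a)) * (m - a) := by
        simp only [hU]; ring
      rw [this, hcmul, ← hVdef]; ring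
    have h2 : 0 < (b - a) * U m := by rw [h1]; positivity
    exact (pos_iff_pos_of_mul_pos h2).1 hba
  have hna : ∀ᶠ y in 𝓝 a, U y < D / 4 := by
    have : U a < D / 4 := by rw [hUa]; positivity
    exact hUc.continuousAt.eventually_lt_const this
  have hnb : ∀ᶠ y in 𝓝 b, U y < D / 4 := by
    have : U b < D / 4 := by rw [hUb]; positivity
    exact hUc.continuousAt.eventually_lt_const this
  obtain ⟨κ1, hκ1, h1⟩ := Metric.eventually_nhds_iff.1 hna
  obtain ⟨κ2, hκ2, h2⟩ := Metric.eventually_nhds_iff.1 hnb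
  refine ⟨ε, hεpos, min κ1 κ2, lt_min hκ1 hκ2, c, D / (8 * (b - a)), by positivity, ?_⟩
  intro p hp
  set p' := p - c with hp'
  have hp'abs : |p'| * (b - a) ≤ D / 8 := by
    have : |p'| ≤ D / (8 * (b - a)) := by
      rw [abs_le]; constructor <;> [linarith [hp.1]; linarith [hp.2]]
    calc |p'| * (b - a) ≤ D / (8 * (b - a)) * (b - a) :=
          mul_le_mul_of_nonneg_right this hba.le
      _ = D / 8 := by field_simp
  have hcomp : IsCompact (Icc a b) := isCompact_Icc
  obtain ⟨t, htm, htmax⟩ := hcomp.exists_isMaxOn (f := fun y => U y - p' * (y - a))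
    ⟨a, left_mem_Icc.2 hab.le⟩ (by fun_prop)
  have hpt : ∀ y ∈ Icc a b, |p' * (y - a)| ≤ D / 8 := by
    intro y hy
    rw [abs_mul, abs_of_nonneg (sub_nonneg.2 hy.1)]
    refine le_trans (mul_le_mul_of_nonneg_left ?_ (abs_nonneg _)) hp'abs
    linarith [hy.2]
  have hmm : m ∈ Icc a b := ⟨ham.le, hmb.le⟩
  have hmaxm : U m - p' * (m - a) ≤ U t - p' * (t - a) := htmax hmm
  have hb1 := abs_le.1 (hpt m hmm)
  have hb2 := abs_le.1 (hpt t htm)
  have hUt : D / 4 < U t := by
    have : D = U m := hD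
    linarith [hb1.1, hb1.2, hb2.1, hb2.2]
  refine ⟨t, ?_, ?_, ?_⟩
  · by_contra hcon
    push Not at hcon
    have : U t < D / 4 := h1 (by
      rw [Real.dist_eq, abs_of_nonneg (by linarith [htm.1])]
      linarith [min_le_left κ1 κ2])
    linarith
  · by_contra hcon
    push Not at hcon
    have : U t < D / 4 := h2 (by
      rw [Real.dist_eq, abs_sub_comm, abs_of_nonneg (by linarith [htm.2])]
      linarith [min_le_right κ1 κ2])
    linarith
  · intro y hy
    have h3 : U y - p' * (y - a) ≤ U t - p' * (t - a) := htmax hy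
    simp only [hU, hV, hp'] at h3
    have : p * (y - t) = p * (y - a) - p * (t - a) := by ring
    linarith

/-- A continuous function which is locally midpoint convex lies below its chords. -/
lemma chord_of_local {Ψ : ℝ → ℝ} (hΨ : Continuous Ψ) {a b : ℝ}
    (hloc : ∀ y ∈ Ioo a b, ∃ r > 0, ∀ h ∈ Ioo 0 r, 2 * Ψ y ≤ Ψ (y + h) + Ψ (y - h))
    {m : ℝ} (ham : a < m) (hmb : m < b) :
    (b - a) * Ψ m ≤ (b - m) * Ψ a + (m - a) * Ψ b := by
  by_contra hcon
  push Not at hcon
  obtain ⟨ε, hε, κ, hκ, c, η, hη, H⟩ := contact hΨ ham hmb hcon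
  obtain ⟨t, hta, htb, ht⟩ := H c ⟨by linarith, by linarith⟩
  obtain ⟨r, hr, hr'⟩ := hloc t ⟨by linarith, by linarith⟩
  set h := min (r / 2) κ with hh
  have hpos : 0 < h := lt_min (by linarith) hκ
  have h1 := hr' h ⟨hpos, lt_of_le_of_lt (min_le_left _ _) (by linarith)⟩
  have hk : h ≤ κ := min_le_right _ _
  have h2 := ht (t + h) ⟨by linarith, by linarith⟩
  have h3 := ht (t - h) ⟨by linarith, by linarith⟩
  have : 0 < ε * h ^ 2 := by positivity
  nlinarith

/-- The same with an exceptional null set, for functions with second differences bounded below. -/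
lemma chord_of_null {Ψ : ℝ → ℝ} (hΨ : Continuous Ψ) {a b : ℝ} {B : Set ℝ} (hB : volume B = 0)
    (hloc : ∀ y ∈ Ioo a b, y ∉ B → ∃ r > 0, ∀ h ∈ Ioo 0 r, 2 * Ψ y ≤ Ψ (y + h) + Ψ (y - h))
    {C : ℝ} (hC : 0 < C) (hsemi : ∀ y h, y - h ∈ Icc a b → y + h ∈ Icc a b →
      2 * Ψ y - C * h ^ 2 ≤ Ψ (y + h) + Ψ (y - h))
    {m : ℝ} (ham : a < m) (hmb : m < b) :
    (b - a) * Ψ m ≤ (b - m) * Ψ a + (m - a) * Ψ b := by
  by_contra hcon
  push Not at hcon
  obtain ⟨ε, hε, κ, hκ, c, η, hη, H⟩ := contact hΨ ham hmb hcon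
  set P := Ioo (c - η) (c + η) with hP
  have H' : ∀ p : ℝ, ∃ t, p ∈ P → a + κ ≤ t ∧ t ≤ b - κ ∧
      ∀ y ∈ Icc a b, Ψ y + ε * y ^ 2 ≤ Ψ t + ε * t ^ 2 + p * (y - t) := by
    intro p
    by_cases hp : p ∈ P
    · obtain ⟨t, ht⟩ := H p hp
      exact ⟨t, fun _ => ht⟩
    · exact ⟨0, fun h => absurd h hp⟩
  choose T hT using H'
  -- the contact points lie in the exceptional set
  have hTB : ∀ p ∈ P, T p ∈ B := by
    intro p hp
    obtain ⟨hta, htb, ht⟩ := hT p hp
    by_contra hnB
    obtain ⟨r, hr, hr'⟩ := hloc (T p) ⟨by linarith, by linarith⟩ hnB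
    set h := min (r / 2) κ with hh
    have hpos : 0 < h := lt_min (by linarith) hκ
    have h1 := hr' h ⟨hpos, lt_of_le_of_lt (min_le_left _ _) (by linarith)⟩
    have hk : h ≤ κ := min_le_right _ _
    have h2 := ht (T p + h) ⟨by linarith, by linarith⟩
    have h3 := ht (T p - h) ⟨by linarith, by linarith⟩
    have : 0 < ε * h ^ 2 := by positivity
    nlinarith
  -- lower parabola
  have hlow : ∀ p ∈ P, ∀ h, |h| ≤ κ →
      Ψ (T p) + ε * (T p) ^ 2 + p * h - C * h ^ 2 ≤ Ψ (T p + h) + ε * (T p + h) ^ 2 := by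
    intro p hp h hh
    obtain ⟨hta, htb, ht⟩ := hT p hp
    obtain ⟨hh1, hh2⟩ := abs_le.1 hh
    have hm1 : T p - h ∈ Icc a b := ⟨by linarith, by linarith⟩
    have hm2 : T p + h ∈ Icc a b := ⟨by linarith, by linarith⟩
    have h1 := hsemi (T p) h hm1 hm2
    have h2 := ht (T p - h) hm1
    have : 0 ≤ ε * h ^ 2 := by positivity
    nlinarith
  have hkey : ∀ p ∈ P, ∀ q ∈ P, |T p - T q| ≤ κ → ∀ h, |h| ≤ κ →
      (p - q) * h ≤ C * ((T p - T q) ^ 2 + h ^ 2) := by
    intro p hp q hq hd h hh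
    have h1 := hlow p hp h hh
    have h2 := hlow q hq (T p - T q) hd
    rw [add_sub_cancel] at h2
    obtain ⟨hta, htb, ht⟩ := hT p hp
    obtain ⟨hh1, hh2⟩ := abs_le.1 hh
    have h3 := (hT q hq).2.2 (T p + h) ⟨by linarith, by linarith⟩
    nlinarith
  have hLip : ∀ p ∈ P, ∀ q ∈ P, |T p - T q| ≤ κ → |p - q| ≤ 2 * C * |T p - T q| := by
    intro p hp q hq hd
    rcases (abs_nonneg (T p - T q)).eq_or_lt with h0 | h0
    · -- equal contact points
      have h0' : T p - T q = 0 := abs_eq_zero.1 h0.symm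
      have hle : ∀ h, |h| ≤ κ → (p - q) * h ≤ C * h ^ 2 := by
        intro h hh
        have := hkey p hp q hq hd h hh
        rw [h0'] at this
        simpa using this
      have h1 : |p - q| ≤ 0 := by
        refine le_of_forall_pos_le_add fun δ hδ => ?_
        set h := min κ (δ / C) with hh
        have hpos : 0 < h := lt_min hκ (by positivity)
        have hCh : C * h ≤ δ := by
          calc C * h ≤ C * (δ / C) := mul_le_mul_of_nonneg_left (min_le_right _ _) hC.le
            _ = δ := by field_simp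
        have e1 := hle h (by rw [abs_of_pos hpos]; exact min_le_left _ _)
        have e2 := hle (-h) (by rw [abs_neg, abs_of_pos hpos]; exact min_le_left _ _)
        rw [zero_add, abs_le]
        constructor
        · by_contra hc
          push Not at hc
          nlinarith
        · by_contra hc
          push Not at hc
          nlinarith
      rw [← h0]
      simpa using h1
    · set d := |T p - T q| with hd'
      have hsq : (T p - T q) ^ 2 = d ^ 2 := by rw [hd', sq_abs]
      have e1 := hkey p hp q hq hd d (by rw [abs_of_pos h0]; exact hd)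
      have e2 := hkey p hp q hq hd (-d) (by rw [abs_neg, abs_of_pos h0]; exact hd)
      rw [hsq] at e1 e2
      rw [abs_le]
      constructor <;> nlinarith
  have hinj : InjOn T P := by
    intro p hp q hq hpq
    have := hLip p hp q hq (by rw [hpq, sub_self, abs_zero]; exact hκ.le)
    rw [hpq, sub_self, abs_zero, mul_zero] at this
    exact sub_eq_zero.1 (abs_eq_zero.1 (le_antisymm this (abs_nonneg _)))
  set g := Function.invFunOn T P with hg
  have hgT : ∀ p ∈ P, g (T p) = p := fun p hp => hinj.leftInvOn_invFunOn hp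
  have hnull : ∀ j : ℤ, volume (g '' (T '' P ∩ Ico (j * κ) ((j + 1) * κ))) = 0 := by
    intro j
    have hL : LipschitzOnWith (Real.toNNReal (2 * C)) g (T '' P ∩ Ico (j * κ) ((j + 1) * κ)) := by
      refine LipschitzOnWith.of_dist_le_mul ?_
      rintro _ ⟨⟨p, hp, rfl⟩, hpj⟩ _ ⟨⟨q, hq, rfl⟩, hqj⟩
      rw [hgT p hp, hgT q hq, Real.dist_eq, Real.dist_eq, Real.coe_toNNReal _ (by positivity)]
      refine hLip p hp q hq ?_
      rw [abs_le]
      constructor <;> nlinarith [hpj.1, hpj.2, hqj.1, hqj.2]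
    have h1 := hL.hausdorffMeasure_image_le (d := 1) zero_le_one
    rw [hausdorffMeasure_real] at h1
    have h2 : volume (T '' P ∩ Ico (j * κ) ((j + 1) * κ)) = 0 := by
      refine measure_mono_null ?_ hB
      rintro _ ⟨⟨p, hp, rfl⟩, _⟩
      exact hTB p hp
    rw [h2, mul_zero] at h1
    exact le_antisymm h1 bot_le
  have hcov : P ⊆ ⋃ j : ℤ, g '' (T '' P ∩ Ico (j * κ) ((j + 1) * κ)) := by
    intro p hp
    refine mem_iUnion.2 ⟨⌊T p / κ⌋, T p, ⟨⟨p, hp, rfl⟩, ?_, ?_⟩, hgT p hp⟩
    · have := Int.floor_le (T p / κ)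
      rwa [le_div_iff₀ hκ] at this
    · have := Int.lt_floor_add_one (T p / κ)
      rwa [div_lt_iff₀ hκ] at this
  have h0 : volume P = 0 := measure_mono_null hcov (measure_iUnion_null hnull)
  rw [hP, Real.volume_Ioo] at h0
  have := ENNReal.ofReal_eq_zero.1 h0
  linarith

end Pool.Agent.R222.Dust
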