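import Mathlib
import Pool.Agent.R222.Dust.OneDim
import Pool.Agent.R222.Dust.Defs

set_option autoImplicit false

open Set MeasureTheory Filter Topology
open scoped Pointwise

namespace Pool.Agent.R222.Dust

variable {f : ℝ × ℝ → ℝ} {E : Set (ℝ × ℝ)}

lemma mid_local (hloc : LocConvexOn f Eᶜ) {z : ℝ × ℝ} (hz : z ∉ E) (v : ℝ × ℝ) :
    ∃ r > 0, ∀ h ∈ Ioo (0:ℝ) r, 2 * f z ≤ f (z + h • v) + f (z - h • v) := by
  obtain ⟨V, hVo, hVc, hzV, hVU, hconv⟩ := hloc z hz
  have h1 : ∀ᶠ h : ℝ in 𝓝 0, z + h • v ∈ V := by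
    have : ContinuousAt (fun h : ℝ => z + h • v) 0 := by fun_prop
    apply this.eventually_mem
    simpa using hVo.mem_nhds hzV
  have h2 : ∀ᶠ h : ℝ in 𝓝 0, z - h • v ∈ V := by
    have : ContinuousAt (fun h : ℝ => z - h • v) 0 := by fun_prop
    apply this.eventually_mem
    simpa using hVo.mem_nhds hzV
  obtain ⟨r, hr, hr'⟩ := Metric.eventually_nhds_iff.1 (h1.and h2)
  refine ⟨r, hr, fun h hh => ?_⟩
  obtain ⟨h3, h4⟩ := hr' (y := h) (by rw [Real.dist_eq, sub_zero, abs_of_pos hh.1]; exact hh.2)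
  have h5 := hconv.2 h3 h4 (show (0:ℝ) ≤ 1 / 2 by norm_num) (show (0:ℝ) ≤ 1 / 2 by norm_num)
    (by norm_num)
  have h6 : (1 / 2 : ℝ) • (z + h • v) + (1 / 2 : ℝ) • (z - h • v) = z := by
    rw [← smul_add, add_add_sub_cancel, ← two_smul ℝ z, smul_smul]
    norm_num
  rw [h6] at h5
  simp only [smul_eq_mul] at h5
  linarith

/-- chord inequality along a segment whose open part avoids `E` -/
lemma chord_segment (hf : Continuous f) (hloc : LocConvexOn f Eᶜ) (z v : ℝ × ℝ) {a b m : ℝ}
    (hE : ∀ t ∈ Ioo a b, z + t • v ∉ E) (ham : a < m) (hmb : m < b) :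
    (b - a) * f (z + m • v) ≤ (b - m) * f (z + a • v) + (m - a) * f (z + b • v) := by
  refine chord_of_local (Ψ := fun t => f (z + t • v)) (by fun_prop) ?_ ham hmb
  intro y hy
  obtain ⟨r, hr, h⟩ := mid_local hloc (hE y hy) v
  refine ⟨r, hr, fun h' hh' => ?_⟩
  have := h h' hh'
  have e1 : z + (y + h') • v = z + y • v + h' • v := by rw [add_smul]; abel
  have e2 : z + (y - h') • v = z + y • v - h' • v := by rw [sub_smul]; abel
  simp only [e1, e2]
  exact this

lemma convex_x (hf : Continuous f) (hloc : LocConvexOn f Eᶜ)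
    (hd : Dense (Prod.snd '' E)ᶜ) (y : ℝ) {a b m : ℝ} (ham : a < m) (hmb : m < b) :
    (b - a) * f (m, y) ≤ (b - m) * f (a, y) + (m - a) * f (b, y) := by
  have hcl : IsClosed {y : ℝ | (b - a) * f (m, y) ≤ (b - m) * f (a, y) + (m - a) * f (b, y)} :=
    isClosed_le (by fun_prop) (by fun_prop)
  have hsub : (Prod.snd '' E)ᶜ ⊆
      {y : ℝ | (b - a) * f (m, y) ≤ (b - m) * f (a, y) + (m - a) * f (b, y)} := by
    intro y hy
    have := chord_segment hf hloc (0, y) (1, 0) (a := a) (b := b) (m := m)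
      (fun t _ h => hy ⟨_, h, by simp⟩) ham hmb
    simpa using this
  exact hcl.closure_subset_iff.2 hsub (hd y)

lemma convex_y (hf : Continuous f) (hloc : LocConvexOn f Eᶜ)
    (hd : Dense (Prod.fst '' E)ᶜ) (x : ℝ) {a b m : ℝ} (ham : a < m) (hmb : m < b) :
    (b - a) * f (x, m) ≤ (b - m) * f (x, a) + (m - a) * f (x, b) := by
  have hcl : IsClosed {x : ℝ | (b - a) * f (x, m) ≤ (b - m) * f (x, a) + (m - a) * f (x, b)} :=
    isClosed_le (by fun_prop) (by fun_prop)
  have hsub : (Prod.fst '' E)ᶜ ⊆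
      {x : ℝ | (b - a) * f (x, m) ≤ (b - m) * f (x, a) + (m - a) * f (x, b)} := by
    intro x hx
    have := chord_segment hf hloc (x, 0) (0, 1) (a := a) (b := b) (m := m)
      (fun t _ h => hx ⟨_, h, by simp⟩) ham hmb
    simpa using this
  exact hcl.closure_subset_iff.2 hsub (hd x)

lemma convex_thin (hf : Continuous f) (hloc : LocConvexOn f Eᶜ) {v : ℝ × ℝ}
    (hthin : IntervallyThin E v) (z : ℝ × ℝ) {a b m : ℝ} (ham : a < m) (hmb : m < b) :
    (b - a) * f (z + m • v) ≤ (b - m) * f (z + a • v) + (m - a) * f (z + b • v) := by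
  have hba : 0 < b - a := by linarith
  by_contra hcon
  push Not at hcon
  set x := z + a • v with hx
  set y := z + b • v with hy
  set τ := (m - a) / (b - a) with hτ
  have hmid : z + m • v = x + τ • (y - x) := by
    have h1 : τ * (b - a) = m - a := by rw [hτ]; field_simp
    have h2 : y - x = (b - a) • v := by rw [hx, hy, sub_smul]; abel
    rw [h2, smul_smul, h1, hx, add_assoc, ← add_smul]
    congr 2
    ring
  have hG : Continuous fun p : (ℝ × ℝ) × (ℝ × ℝ) => (b - a) * f (p.1 + τ • (p.2 - p.1)) -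
      ((b - m) * f p.1 + (m - a) * f p.2) := by fun_prop
  have hG0 : 0 < (fun p : (ℝ × ℝ) × (ℝ × ℝ) => (b - a) * f (p.1 + τ • (p.2 - p.1)) -
      ((b - m) * f p.1 + (m - a) * f p.2)) (x, y) := by
    simp only
    rw [← hmid]
    linarith
  obtain ⟨ε, hε, hball⟩ := Metric.eventually_nhds_iff.1 (hG.continuousAt.eventually_const_lt hG0)
  obtain ⟨x', hx', y', hy', hdis⟩ := hthin x y ⟨a - b, by rw [hx, hy, sub_smul]; abel⟩ ε hε
  have h1 := hball (y := (x', y')) (by
    rw [Prod.dist_eq]
    exact max_lt hx' hy')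
  simp only at h1
  have h2 := chord_segment hf hloc x' (y' - x') (a := 0) (b := 1) (m := τ)
    (fun t ht hmem => hdis.le_bot ⟨by
      rw [segment_eq_image']
      exact ⟨t, ⟨ht.1.le, ht.2.le⟩, rfl⟩, hmem⟩) (by rw [hτ]; apply div_pos <;> linarith)
    (by rw [hτ, div_lt_one hba]; linarith)
  rw [zero_smul, add_zero, one_smul, add_sub_cancel] at h2
  have h3 : (b - a) * (1 - τ) = b - m := by rw [hτ]; field_simp; ring
  have h4 : (b - a) * τ = m - a := by rw [hτ]; field_simp
  have h5 := mul_le_mul_of_nonneg_left h2 hba.le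
  have h6 : (b - a) * ((1 - τ) * f x' + (τ - 0) * f y') = (b - m) * f x' + (m - a) * f y' := by
    rw [← h3, ← h4]; ring
  rw [h6, sub_zero, one_mul] at h5
  linarith

/-- A function with the chord property and values in `[-Q,Q]` on `[a-1,b+1]` is `2Q`-Lipschitz
on `[a,b]`; two-point form. -/
lemma lip_of_chord {g : ℝ → ℝ} (hg : ∀ a m b : ℝ, a < m → m < b →
      (b - a) * g m ≤ (b - m) * g a + (m - a) * g b) {a b Q : ℝ}
    (hQ : ∀ y ∈ Icc (a - 1) (b + 1), |g y| ≤ Q) {x y : ℝ} (hx : x ∈ Icc a b) (hy : y ∈ Icc a b) :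
    |g x - g y| ≤ 2 * Q * |x - y| := by
  have main : ∀ x ∈ Icc a b, ∀ y ∈ Icc a b, x < y → |g x - g y| ≤ 2 * Q * |x - y| := by
    intro x hx y hy hxy
    have h1 := hg x y (y + 1) hxy (by linarith)
    have h2 := hg (x - 1) x y (by linarith) hxy
    have q1 := abs_le.1 (hQ (y + 1) ⟨by linarith [hy.1], by linarith [hy.2]⟩)
    have q2 := abs_le.1 (hQ (x - 1) ⟨by linarith [hx.1], by linarith [hx.2]⟩)
    have q3 := abs_le.1 (hQ x ⟨by linarith [hx.1], by linarith [hx.2]⟩)
    have q4 := abs_le.1 (hQ y ⟨by linarith [hy.1], by linarith [hy.2]⟩)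
    have hxy' : |x - y| = y - x := by rw [abs_sub_comm, abs_of_pos (by linarith)]
    rw [hxy', abs_le]
    have hd : 0 < y - x := by linarith
    constructor
    · -- g y - g x ≤ 2 Q (y - x) : from h1
      nlinarith
    · nlinarith
  rcases lt_trichotomy x y with h | h | h
  · exact main x hx y hy h
  · subst h; simp
  · rw [abs_sub_comm, abs_sub_comm x y]; exact main y hy x hx h

/-- shifting the variable of integration -/
lemma shift_bound {g : ℝ → ℝ} (hg : Continuous g) {δ k N : ℝ} (hδ : 0 ≤ δ)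
    (hN : ∀ s ∈ Icc (-|k|) (δ + |k|), |g s| ≤ N) :
    |(∫ s in (0:ℝ)..δ, g (s + k)) - ∫ s in (0:ℝ)..δ, g s| ≤ 2 * |k| * N := by
  have hi : ∀ a b : ℝ, IntervalIntegrable g volume a b := fun a b => hg.intervalIntegrable a b
  have e1 : (∫ s in (0:ℝ)..δ, g (s + k)) = ∫ s in k..(δ + k), g s := by
    rw [intervalIntegral.integral_comp_add_right, zero_add]
  have e2 : (∫ s in k..(δ + k), g s) - ∫ s in (0:ℝ)..δ, g s
      = (∫ s in δ..(δ + k), g s) - ∫ s in (0:ℝ)..k, g s := by
    rw [← intervalIntegral.integral_add_adjacent_intervals (hi k 0) (hi 0 (δ + k)),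
      ← intervalIntegral.integral_add_adjacent_intervals (hi 0 δ) (hi δ (δ + k)),
      intervalIntegral.integral_symm 0 k]
    ring
  rw [e1, e2]
  have h1 : ‖∫ s in δ..(δ + k), g s‖ ≤ N * |δ + k - δ| := by
    refine intervalIntegral.norm_integral_le_of_norm_le_const fun s hs => hN s ?_
    rcases le_total 0 k with hk | hk
    · rw [uIoc_of_le (by linarith)] at hs
      rw [abs_of_nonneg hk]
      exact ⟨by linarith [hs.1], hs.2⟩
    · rw [uIoc_of_ge (by linarith)] at hs
      rw [abs_of_nonpos hk]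
      exact ⟨by linarith [hs.1], by linarith [hs.2]⟩
  have h2 : ‖∫ s in (0:ℝ)..k, g s‖ ≤ N * |k - 0| := by
    refine intervalIntegral.norm_integral_le_of_norm_le_const fun s hs => hN s ?_
    rcases le_total 0 k with hk | hk
    · rw [uIoc_of_le hk] at hs
      rw [abs_of_nonneg hk]
      exact ⟨by linarith [hs.1], by linarith [hs.2]⟩
    · rw [uIoc_of_ge hk] at hs
      rw [abs_of_nonpos hk]
      exact ⟨by linarith [hs.1], by linarith [hs.2]⟩
  rw [Real.norm_eq_abs] at h1 h2
  rw [add_sub_cancel_left] at h1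
  rw [sub_zero] at h2
  calc |(∫ s in δ..(δ + k), g s) - ∫ s in (0:ℝ)..k, g s|
      ≤ |∫ s in δ..(δ + k), g s| + |∫ s in (0:ℝ)..k, g s| := abs_sub _ _
    _ ≤ 2 * |k| * N := by linarith

/-- The averaged function. -/
noncomputable def avg (f : ℝ × ℝ → ℝ) (x0 lam δ y : ℝ) : ℝ :=
  ∫ s in (0:ℝ)..δ, f (x0 + lam * y + s, y)

lemma avg_continuous (hf : Continuous f) (x0 lam δ : ℝ) : Continuous (avg f x0 lam δ) := by
  unfold avg
  refine intervalIntegral.continuous_parametric_intervalIntegral_of_continuous' ?_ _ _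
  fun_prop

/-- Second differences of the averaged function are bounded below. -/
lemma avg_semi (hf : Continuous f)
    (hx : ∀ y a m b : ℝ, a < m → m < b →
      (b - a) * f (m, y) ≤ (b - m) * f (a, y) + (m - a) * f (b, y))
    (hy : ∀ x a m b : ℝ, a < m → m < b →
      (b - a) * f (x, m) ≤ (b - m) * f (x, a) + (m - a) * f (x, b))
    (x0 lam : ℝ) {δ : ℝ} (hδ : 0 < δ) (a b : ℝ) :
    ∃ C > 0, ∀ y h, y - h ∈ Icc a b → y + h ∈ Icc a b →
      2 * avg f x0 lam δ y - C * h ^ 2 ≤ avg f x0 lam δ (y + h) + avg f x0 lam δ (y - h) := by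
  set M := |x0| + |lam| * (|a| + |b|) + δ with hM
  obtain ⟨Q, hQ⟩ := (isCompact_Icc (a := (-(M + |lam| * (b - a)), a - 1))
    (b := (M + |lam| * (b - a), b + 1))).exists_bound_of_continuousOn hf.continuousOn
  have hQ' : ∀ x y : ℝ, |x| ≤ M + |lam| * (b - a) → y ∈ Icc (a - 1) (b + 1) →
      |f (x, y)| ≤ |Q| := by
    intro x y hx hy
    refine le_trans (hQ (x, y) ?_) (le_abs_self Q)
    obtain ⟨h1, h2⟩ := abs_le.1 hx
    exact ⟨⟨h1, hy.1⟩, ⟨h2, hy.2⟩⟩
  refine ⟨8 * |Q| * |lam| + 1, by positivity, ?_⟩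
  intro y h hym hyp
  have hyab : y ∈ Icc a b := ⟨by linarith [hym.1, hyp.1], by linarith [hym.2, hyp.2]⟩
  have hhab : |h| ≤ b - a := by
    rw [abs_le]; constructor <;> linarith [hym.1, hyp.1, hym.2, hyp.2]
  set c := x0 + lam * y with hc
  set k := lam * h with hk
  have hkab : |k| ≤ |lam| * (b - a) := by
    rw [hk, abs_mul]; exact mul_le_mul_of_nonneg_left hhab (abs_nonneg _)
  have hcM : |c| + δ ≤ M := by
    have h1 : |c| ≤ |x0| + |lam| * |y| := by
      rw [hc, ← abs_mul]; exact abs_add_le _ _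
    have h2 : |y| ≤ |a| + |b| := by
      rw [abs_le]
      constructor
      · linarith [hyab.1, neg_abs_le a, abs_nonneg b]
      · linarith [hyab.2, le_abs_self b, abs_nonneg a]
    have h3 := mul_le_mul_of_nonneg_left h2 (abs_nonneg lam)
    linarith
  have hrange : ∀ s ∈ Icc (-|k|) (δ + |k|), |c + s| ≤ M + |lam| * (b - a) := by
    intro s hs
    have : |c + s| ≤ |c| + |s| := abs_add_le _ _
    have h2 : |s| ≤ δ + |k| := by
      rw [abs_le]; exact ⟨by linarith [hs.1], hs.2⟩
    linarith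
  have hD : ∀ y' ∈ Icc a b, ∀ s ∈ Icc (-|k|) (δ + |k|),
      |f (c + s, y') - f (c + s, y)| ≤ 2 * |Q| * |y' - y| := by
    intro y' hy' s hs
    exact lip_of_chord (g := fun y => f (c + s, y)) (fun a m b h1 h2 => hy _ a m b h1 h2)
      (a := a) (b := b) (fun y hy => hQ' _ _ (hrange s hs) hy) hy' hyab
  have hci : ∀ (c' y' : ℝ), IntervalIntegrable (fun s => f (c' + s, y')) volume 0 δ :=
    fun c' y' => (by fun_prop : Continuous fun s => f (c' + s, y')).intervalIntegrable _ _
  -- first cross term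
  have I1 := shift_bound (g := fun s => f (c + s, y + h) - f (c + s, y)) (by fun_prop)
    (k := k) hδ.le (N := 2 * |Q| * |h|) (fun s hs => by
      have := hD (y + h) hyp s hs
      rwa [add_sub_cancel_left] at this)
  have I2 := shift_bound (g := fun s => f (c + s, y - h) - f (c + s, y)) (by fun_prop)
    (k := -k) hδ.le (N := 2 * |Q| * |h|) (fun s hs => by
      rw [abs_neg] at hs
      have := hD (y - h) hym s hs
      rwa [sub_sub_cancel_left, abs_neg] at this)
  rw [abs_neg] at I2
  have hkh : |k| * |h| = |lam| * h ^ 2 := by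
    rw [hk, abs_mul, mul_assoc, ← sq, sq_abs]
  have i1 : ∀ k' : ℝ, IntervalIntegrable (fun s => f (c + (s + k'), y + h)) volume 0 δ :=
    fun k' => (by fun_prop : Continuous fun s => f (c + (s + k'), y + h)).intervalIntegrable _ _
  have i2 : ∀ k' : ℝ, IntervalIntegrable (fun s => f (c + (s + k'), y - h)) volume 0 δ :=
    fun k' => (by fun_prop : Continuous fun s => f (c + (s + k'), y - h)).intervalIntegrable _ _
  have i3 : ∀ k' : ℝ, IntervalIntegrable (fun s => f (c + (s + k'), y)) volume 0 δ :=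
    fun k' => (by fun_prop : Continuous fun s => f (c + (s + k'), y)).intervalIntegrable _ _
  have E1 : avg f x0 lam δ (y + h) = ∫ s in (0:ℝ)..δ, f (c + (s + k), y + h) := by
    unfold avg
    refine intervalIntegral.integral_congr fun s _ => ?_
    congr 2
    rw [hc, hk]; ring
  have E2 : avg f x0 lam δ (y - h) = ∫ s in (0:ℝ)..δ, f (c + (s + -k), y - h) := by
    unfold avg
    refine intervalIntegral.integral_congr fun s _ => ?_
    congr 2
    rw [hc, hk]; ring
  have E3 : avg f x0 lam δ y = ∫ s in (0:ℝ)..δ, f (c + s, y) := rfl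
  have J1 : (∫ s in (0:ℝ)..δ, (f (c + (s + k), y + h) - f (c + (s + k), y)))
      = (∫ s in (0:ℝ)..δ, f (c + (s + k), y + h)) - ∫ s in (0:ℝ)..δ, f (c + (s + k), y) :=
    intervalIntegral.integral_sub (i1 k) (i3 k)
  have J2 : (∫ s in (0:ℝ)..δ, (f (c + (s + -k), y - h) - f (c + (s + -k), y)))
      = (∫ s in (0:ℝ)..δ, f (c + (s + -k), y - h)) - ∫ s in (0:ℝ)..δ, f (c + (s + -k), y) :=
    intervalIntegral.integral_sub (i2 (-k)) (i3 (-k))
  -- convexity in `x`
  have X : 2 * (∫ s in (0:ℝ)..δ, f (c + s, y)) ≤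
      (∫ s in (0:ℝ)..δ, f (c + (s + k), y)) + ∫ s in (0:ℝ)..δ, f (c + (s + -k), y) := by
    rw [← intervalIntegral.integral_const_mul, ← intervalIntegral.integral_add (i3 k) (i3 (-k))]
    refine intervalIntegral.integral_mono_on hδ.le ((hci c y).const_mul 2)
      ((i3 k).add (i3 (-k))) fun s _ => ?_
    have : ∀ k' : ℝ, 0 < k' → 2 * f (c + s, y) ≤ f (c + (s + k'), y) + f (c + (s + -k'), y) := by
      intro k' hk'
      have := hx y (c + (s + -k')) (c + s) (c + (s + k')) (by linarith) (by linarith)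
      have e1 : c + (s + k') - (c + (s + -k')) = 2 * k' := by ring
      have e2 : c + (s + k') - (c + s) = k' := by ring
      have e3 : c + s - (c + (s + -k')) = k' := by ring
      rw [e1, e2, e3] at this
      have h2 : k' * (2 * f (c + s, y)) ≤ k' * (f (c + (s + k'), y) + f (c + (s + -k'), y)) := by
        linarith
      exact le_of_mul_le_mul_left h2 hk'
    rcases lt_trichotomy k 0 with h0 | h0 | h0
    · have := this (-k) (by linarith)
      rw [neg_neg] at this
      linarith
    · rw [h0]; simp only [neg_zero, add_zero]; linarith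
    · exact this k h0
  -- convexity in `y`
  have Y : 0 ≤ (∫ s in (0:ℝ)..δ, (f (c + s, y + h) - f (c + s, y)))
      + ∫ s in (0:ℝ)..δ, (f (c + s, y - h) - f (c + s, y)) := by
    rw [← intervalIntegral.integral_add ((hci c (y + h)).sub (hci c y))
      ((hci c (y - h)).sub (hci c y))]
    refine intervalIntegral.integral_nonneg hδ.le fun s _ => ?_
    have : ∀ h' : ℝ, 0 < h' → 2 * f (c + s, y) ≤ f (c + s, y + h') + f (c + s, y - h') := by
      intro h' hh'
      have := hy (c + s) (y - h') y (y + h') (by linarith) (by linarith)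
      have e1 : y + h' - (y - h') = 2 * h' := by ring
      have e2 : y + h' - y = h' := by ring
      have e3 : y - (y - h') = h' := by ring
      rw [e1, e2, e3] at this
      have h2 : h' * (2 * f (c + s, y)) ≤ h' * (f (c + s, y + h') + f (c + s, y - h')) := by
        linarith
      exact le_of_mul_le_mul_left h2 hh'
    rcases lt_trichotomy h 0 with h0 | h0 | h0
    · have := this (-h) (by linarith)
      rw [sub_neg_eq_add, ← sub_eq_add_neg] at this
      linarith
    · rw [h0]; simp
    · have := this h h0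
      linarith
  rw [J1] at I1
  rw [J2] at I2
  have I1' := (abs_le.1 I1).1
  have I2' := (abs_le.1 I2).1
  rw [E1, E2, E3]
  have hkk : 2 * |k| * (2 * |Q| * |h|) = 4 * |Q| * (|lam| * h ^ 2) := by
    rw [← hkh]; ring
  rw [hkk] at I1' I2'
  nlinarith [sq_nonneg h]

/-- The averaged function is midpoint convex away from the projection of `E`. -/
lemma avg_local (hf : Continuous f) (hE : IsClosed E) (hloc : LocConvexOn f Eᶜ)
    (x0 lam : ℝ) {δ : ℝ} (hδ : 0 < δ) {y : ℝ} (hyE : y ∉ Prod.snd '' E) :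
    ∃ r > 0, ∀ h ∈ Ioo (0:ℝ) r,
      2 * avg f x0 lam δ y ≤ avg f x0 lam δ (y + h) + avg f x0 lam δ (y - h) := by
  set M := |x0 + lam * y| + δ + |lam| with hM
  have hK : IsCompact (Prod.snd '' (E ∩ (Icc (-M) M ×ˢ Icc (y - 1) (y + 1)))) :=
    ((isCompact_Icc.prod isCompact_Icc).inter_left hE).image continuous_snd
  have hyK : y ∉ Prod.snd '' (E ∩ (Icc (-M) M ×ˢ Icc (y - 1) (y + 1))) := by
    rintro ⟨z, ⟨hz, _⟩, hzy⟩
    exact hyE ⟨z, hz, hzy⟩
  obtain ⟨r, hr, hr'⟩ := Metric.isOpen_iff.1 hK.isClosed.isOpen_compl y hyK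
  refine ⟨min r 1, lt_min hr one_pos, fun h hh => ?_⟩
  have hh1 : h < r := lt_of_lt_of_le hh.2 (min_le_left _ _)
  have hh2 : h < 1 := lt_of_lt_of_le hh.2 (min_le_right _ _)
  unfold avg
  have ci : ∀ (c' y' : ℝ), IntervalIntegrable (fun s => f (c' + s, y')) volume 0 δ :=
    fun c' y' => (by fun_prop : Continuous fun s => f (c' + s, y')).intervalIntegrable _ _
  rw [← intervalIntegral.integral_const_mul, ← intervalIntegral.integral_add (ci _ _) (ci _ _)]
  refine intervalIntegral.integral_mono_on hδ.le ((ci _ _).const_mul 2)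
    ((ci _ _).add (ci _ _)) fun s hs => ?_
  have hseg := chord_segment hf hloc (x0 + lam * y + s, y) (lam, 1) (a := -h) (b := h) (m := 0)
    (fun t ht hmem => by
      have hmem' : (x0 + lam * y + s + t * lam, y + t) ∈ E := by simpa using hmem
      have ht1 : |t| < h := abs_lt.2 ht
      have hyt : y + t ∈ Metric.ball y r := by
        rw [Metric.mem_ball, Real.dist_eq, add_sub_cancel_left]
        linarith
      refine hr' hyt ⟨_, ⟨hmem', ?_, ?_⟩, rfl⟩
      · have h1 : |x0 + lam * y + s + t * lam| ≤ M := by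
          have e1 : |x0 + lam * y + s + t * lam| ≤ |x0 + lam * y + s| + |t * lam| := abs_add_le _ _
          have e2 : |x0 + lam * y + s| ≤ |x0 + lam * y| + |s| := abs_add_le _ _
          have e3 : |s| ≤ δ := by rw [abs_of_nonneg hs.1]; exact hs.2
          have e4 : |t * lam| ≤ 1 * |lam| := by
            rw [abs_mul]
            exact mul_le_mul_of_nonneg_right (by linarith) (abs_nonneg _)
          linarith
        exact abs_le.1 h1
      · have := abs_lt.1 ht1
        exact ⟨by simp only; linarith, by simp only; linarith⟩)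
    (by linarith [hh.1]) hh.1
  have e1 : ((x0 + lam * y + s, y) : ℝ × ℝ) + (0:ℝ) • (lam, 1) = (x0 + lam * y + s, y) := by simp
  have e2 : ((x0 + lam * y + s, y) : ℝ × ℝ) + (-h) • (lam, (1:ℝ))
      = (x0 + lam * (y - h) + s, y - h) := by
    simp only [Prod.smul_mk, Prod.mk_add_mk, smul_eq_mul]
    congr 1 <;> ring
  have e3 : ((x0 + lam * y + s, y) : ℝ × ℝ) + h • (lam, (1:ℝ))
      = (x0 + lam * (y + h) + s, y + h) := by
    simp only [Prod.smul_mk, Prod.mk_add_mk, smul_eq_mul]
    congr 1 <;> ring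
  rw [e1, e2, e3] at hseg
  have h2 : h * (2 * f (x0 + lam * y + s, y)) ≤
      h * (f (x0 + lam * (y + h) + s, y + h) + f (x0 + lam * (y - h) + s, y - h)) := by
    linarith
  exact le_of_mul_le_mul_left h2 hh.1

/-- chord inequality in every non-horizontal direction -/
lemma chord_direction (hf : Continuous f) (hE : IsClosed E) (hloc : LocConvexOn f Eᶜ)
    (hx : ∀ y a m b : ℝ, a < m → m < b →
      (b - a) * f (m, y) ≤ (b - m) * f (a, y) + (m - a) * f (b, y))
    (hy : ∀ x a m b : ℝ, a < m → m < b →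
      (b - a) * f (x, m) ≤ (b - m) * f (x, a) + (m - a) * f (x, b))
    (hnull : volume (Prod.snd '' E) = 0)
    (x0 lam : ℝ) {a m b : ℝ} (ham : a < m) (hmb : m < b) :
    (b - a) * f (x0 + lam * m, m) ≤
      (b - m) * f (x0 + lam * a, a) + (m - a) * f (x0 + lam * b, b) := by
  by_contra hcon
  push Not at hcon
  set F : ℝ → ℝ := fun s => (b - a) * f (x0 + lam * m + s, m) -
    ((b - m) * f (x0 + lam * a + s, a) + (m - a) * f (x0 + lam * b + s, b)) with hF
  have hFc : Continuous F := by fun_prop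
  have hF0 : 0 < F 0 := by simp only [hF, add_zero]; linarith
  obtain ⟨δ, hδ, hδ'⟩ := Metric.eventually_nhds_iff.1 (hFc.continuousAt.eventually_const_lt hF0)
  have hpos : 0 < ∫ s in (0:ℝ)..(δ / 2), F s := by
    refine intervalIntegral.intervalIntegral_pos_of_pos_on (hFc.intervalIntegrable _ _)
      (fun s hs => hδ' ?_) (by linarith)
    rw [Real.dist_eq, sub_zero, abs_of_pos hs.1]
    linarith [hs.2]
  have hint : (∫ s in (0:ℝ)..(δ / 2), F s) = (b - a) * avg f x0 lam (δ / 2) m -
      ((b - m) * avg f x0 lam (δ / 2) a + (m - a) * avg f x0 lam (δ / 2) b) := by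
    have ci : ∀ (c' y' : ℝ), IntervalIntegrable (fun s => f (c' + s, y')) volume 0 (δ / 2) :=
      fun c' y' => (by fun_prop : Continuous fun s => f (c' + s, y')).intervalIntegrable _ _
    simp only [hF, avg]
    rw [intervalIntegral.integral_sub ((ci _ _).const_mul _)
      (((ci _ _).const_mul _).add ((ci _ _).const_mul _)),
      intervalIntegral.integral_add ((ci _ _).const_mul _) ((ci _ _).const_mul _),
      intervalIntegral.integral_const_mul, intervalIntegral.integral_const_mul,
      intervalIntegral.integral_const_mul]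
  obtain ⟨C, hC, hsemi⟩ := avg_semi hf hx hy x0 lam (half_pos hδ) a b
  have := chord_of_null (avg_continuous hf x0 lam (δ / 2)) hnull
    (fun y _ hyE => avg_local hf hE hloc x0 lam (half_pos hδ) hyE) hC hsemi ham hmb
  linarith

lemma mid_bounds {y1 y2 a b : ℝ} (h : y1 < y2) (ha : 0 < a) (hb : 0 < b) (hab : a + b = 1) :
    y1 < a * y1 + b * y2 ∧ a * y1 + b * y2 < y2 := by
  have hb' : b = 1 - a := by linarith
  have h1 : 0 < b * (y2 - y1) := mul_pos hb (by linarith)
  have h2 : 0 < a * (y2 - y1) := mul_pos ha (by linarith)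
  subst hb'
  constructor <;> linarith

/-- Core theorem. -/
theorem convex_of_null_proj (hf : Continuous f) (hE : IsClosed E) (hloc : LocConvexOn f Eᶜ)
    (hy : ∀ x a m b : ℝ, a < m → m < b →
      (b - a) * f (x, m) ≤ (b - m) * f (x, a) + (m - a) * f (x, b))
    (hnull : volume (Prod.snd '' E) = 0) : ConvexOn ℝ univ f := by
  have hdense : Dense (Prod.snd '' E)ᶜ := by
    rw [← interior_eq_empty_iff_dense_compl]
    exact Measure.interior_eq_empty_of_null hnull
  have hx : ∀ y a m b : ℝ, a < m → m < b →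
      (b - a) * f (m, y) ≤ (b - m) * f (a, y) + (m - a) * f (b, y) :=
    fun y a m b ham hmb => convex_x hf hloc hdense y ham hmb
  have hdir := fun x0 lam a m b ham hmb =>
    chord_direction hf hE hloc hx hy hnull x0 lam (a := a) (m := m) (b := b) ham hmb
  -- the inequality for two distinct points, first coordinate order
  have main : ∀ z1 z2 : ℝ × ℝ, z1.2 < z2.2 → ∀ a b : ℝ, 0 < a → 0 < b → a + b = 1 →
      f (a • z1 + b • z2) ≤ a * f z1 + b * f z2 := by
    rintro ⟨x1, y1⟩ ⟨x2, y2⟩ hlt a b ha hb hab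
    simp only at hlt
    have hd : 0 < y2 - y1 := by linarith
    set lam := (x2 - x1) / (y2 - y1) with hlam
    have hl : lam * (y2 - y1) = x2 - x1 := by rw [hlam]; field_simp
    have hb' : b = 1 - a := by linarith
    have h := hdir (x1 - lam * y1) lam y1 (a * y1 + b * y2) y2 (mid_bounds hlt ha hb hab).1
      (mid_bounds hlt ha hb hab).2
    have e1 : (x1 - lam * y1 + lam * y1, y1) = (x1, y1) := by rw [sub_add_cancel]
    have e2 : (x1 - lam * y1 + lam * y2, y2) = (x2, y2) := by
      congr 1; linarith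
    have e3 : (x1 - lam * y1 + lam * (a * y1 + b * y2), a * y1 + b * y2)
        = a • (x1, y1) + b • (x2, y2) := by
      simp only [Prod.smul_mk, Prod.mk_add_mk, smul_eq_mul]
      congr 1
      have : x1 - lam * y1 + lam * (a * y1 + b * y2) = x1 + b * (lam * (y2 - y1)) := by
        rw [hb']; ring
      rw [this, hl, hb']; ring
    rw [e1, e2, e3] at h
    have e4 : y2 - (a * y1 + b * y2) = a * (y2 - y1) := by rw [hb']; ring
    have e5 : a * y1 + b * y2 - y1 = b * (y2 - y1) := by rw [hb']; ring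
    rw [e4, e5] at h
    have h2 : (y2 - y1) * f (a • (x1, y1) + b • (x2, y2)) ≤
        (y2 - y1) * (a * f (x1, y1) + b * f (x2, y2)) := by linarith
    exact le_of_mul_le_mul_left h2 hd
  have horiz : ∀ y x1 x2 : ℝ, x1 < x2 → ∀ a b : ℝ, 0 < a → 0 < b → a + b = 1 →
      f (a • (x1, y) + b • (x2, y)) ≤ a * f (x1, y) + b * f (x2, y) := by
    intro y x1 x2 hlt a b ha hb hab
    have hb' : b = 1 - a := by linarith
    have hd : 0 < x2 - x1 := by linarith
    have h := hx y x1 (a * x1 + b * x2) x2 (mid_bounds hlt ha hb hab).1 (mid_bounds hlt ha hb hab).2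
    have e3 : (a * x1 + b * x2, y) = a • (x1, y) + b • (x2, y) := by
      simp only [Prod.smul_mk, Prod.mk_add_mk, smul_eq_mul]
      congr 1
      rw [hb']; ring
    rw [e3] at h
    have e4 : x2 - (a * x1 + b * x2) = a * (x2 - x1) := by rw [hb']; ring
    have e5 : a * x1 + b * x2 - x1 = b * (x2 - x1) := by rw [hb']; ring
    rw [e4, e5] at h
    have h2 : (x2 - x1) * f (a • (x1, y) + b • (x2, y)) ≤
        (x2 - x1) * (a * f (x1, y) + b * f (x2, y)) := by linarith
    exact le_of_mul_le_mul_left h2 hd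
  refine ⟨convex_univ, ?_⟩
  rintro ⟨x1, y1⟩ - ⟨x2, y2⟩ - a b ha hb hab
  simp only [smul_eq_mul]
  rcases ha.eq_or_lt with h0 | ha
  · have : b = 1 := by linarith
    rw [← h0, this]; simp
  rcases hb.eq_or_lt with h0 | hb
  · have : a = 1 := by linarith
    rw [← h0, this]; simp
  rcases lt_trichotomy y1 y2 with h | h | h
  · exact main (x1, y1) (x2, y2) h a b ha hb hab
  · subst h
    rcases lt_trichotomy x1 x2 with h | h | h
    · exact horiz y1 x1 x2 h a b ha hb hab
    · subst h
      rw [← add_smul, hab, one_smul, ← add_mul, hab, one_mul]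
    · have := horiz y1 x2 x1 h b a hb ha (by linarith)
      rw [add_comm, add_comm (a * _)]
      exact this
  · have := main (x2, y2) (x1, y1) h b a hb ha (by linarith)
    rw [add_comm, add_comm (a * _)]
    exact this

/-- linear change of coordinates -/
lemma locConvexOn_comp (L : (ℝ × ℝ) →L[ℝ] (ℝ × ℝ)) (hloc : LocConvexOn f Eᶜ) :
    LocConvexOn (f ∘ L) (L ⁻¹' E)ᶜ := by
  intro z hz
  obtain ⟨V, hVo, hVc, hzV, hVU, hconv⟩ := hloc (L z) hz
  exact ⟨L ⁻¹' V, hVo.preimage L.continuous, hVc.linear_preimage L.toLinearMap, hzV,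
    fun y hy => hVU hy, hconv.comp_linearMap L.toLinearMap⟩

/-- **Main theorem.** A closed planar set whose projection along one direction is Lebesgue null and
which is intervally thin in another direction is c-removable. -/
theorem cRemovable_of_null_proj (hE : IsClosed E) (w v : ℝ × ℝ) (hdet : w.1 * v.2 - w.2 * v.1 ≠ 0)
    (hnull : volume ((fun z : ℝ × ℝ => w.1 * z.2 - w.2 * z.1) '' E) = 0)
    (hthin : IntervallyThin E v) : CRemovable E := by
  intro f hf hloc
  set D := w.1 * v.2 - w.2 * v.1 with hD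
  set L : (ℝ × ℝ) →L[ℝ] (ℝ × ℝ) :=
    (ContinuousLinearMap.fst ℝ ℝ ℝ).smulRight w + (ContinuousLinearMap.snd ℝ ℝ ℝ).smulRight v
    with hL
  set M : (ℝ × ℝ) →L[ℝ] (ℝ × ℝ) :=
    ((v.2 / D) • ContinuousLinearMap.fst ℝ ℝ ℝ - (v.1 / D) • ContinuousLinearMap.snd ℝ ℝ ℝ).prod
    ((w.1 / D) • ContinuousLinearMap.snd ℝ ℝ ℝ - (w.2 / D) • ContinuousLinearMap.fst ℝ ℝ ℝ) with hM
  have hLz : ∀ z : ℝ × ℝ, L z = z.1 • w + z.2 • v := fun z => by simp [hL]
  have hML : ∀ z, M (L z) = z := by
    rintro ⟨s, t⟩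
    rw [hLz]
    simp only [hM, ContinuousLinearMap.prod_apply, sub_apply,
      smul_apply, ContinuousLinearMap.coe_fst', ContinuousLinearMap.coe_snd',
      Prod.fst_add, Prod.snd_add, Prod.smul_fst, Prod.smul_snd, smul_eq_mul]
    congr 1
    · field_simp
      rw [hD]; ring
    · field_simp
      rw [hD]; ring
  have hLM : ∀ z, L (M z) = z := by
    rintro ⟨s, t⟩
    rw [hLz]
    simp only [hM, ContinuousLinearMap.prod_apply, sub_apply,
      smul_apply, ContinuousLinearMap.coe_fst', ContinuousLinearMap.coe_snd',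
      smul_eq_mul]
    ext
    · simp only [Prod.fst_add, Prod.smul_fst, smul_eq_mul]
      field_simp
      rw [hD]; ring
    · simp only [Prod.snd_add, Prod.smul_snd, smul_eq_mul]
      field_simp
      rw [hD]; ring
  have hfL : Continuous (f ∘ L) := hf.comp L.continuous
  have key : ConvexOn ℝ univ (f ∘ L) := by
    refine convex_of_null_proj (E := L ⁻¹' E) hfL (hE.preimage L.continuous)
      (locConvexOn_comp L hloc) ?_ ?_
    · intro x a m b ham hmb
      have := convex_thin hf hloc hthin (x • w) (a := a) (b := b) (m := m) ham hmb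
      simp only [Function.comp_apply, hLz]
      exact this
    · have h1 : Prod.snd '' (L ⁻¹' E) =
          (fun s : ℝ => D⁻¹ * s) '' ((fun z : ℝ × ℝ => w.1 * z.2 - w.2 * z.1) '' E) := by
        ext t
        constructor
        · rintro ⟨z, hz, rfl⟩
          refine ⟨_, ⟨L z, hz, rfl⟩, ?_⟩
          rw [hLz]
          simp only [Prod.fst_add, Prod.snd_add, Prod.smul_fst, Prod.smul_snd, smul_eq_mul]
          have : w.1 * (z.1 * w.2 + z.2 * v.2) - w.2 * (z.1 * w.1 + z.2 * v.1) = D * z.2 := by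
            rw [hD]; ring
          rw [this, inv_mul_cancel_left₀ hdet]
        · rintro ⟨_, ⟨z, hz, rfl⟩, rfl⟩
          refine ⟨M z, by rw [mem_preimage, hLM]; exact hz, ?_⟩
          simp only [hM, ContinuousLinearMap.prod_apply, sub_apply,
            smul_apply, ContinuousLinearMap.coe_fst',
            ContinuousLinearMap.coe_snd', smul_eq_mul]
          field_simp
      rw [h1]
      have h2 : (fun s : ℝ => D⁻¹ * s) '' ((fun z : ℝ × ℝ => w.1 * z.2 - w.2 * z.1) '' E)
          = D⁻¹ • ((fun z : ℝ × ℝ => w.1 * z.2 - w.2 * z.1) '' E) := rfl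
      rw [h2, Measure.addHaar_smul, hnull, mul_zero]
  have : f = (f ∘ L) ∘ M := by
    funext z
    simp only [Function.comp_apply, hLM]
  rw [this]
  exact key.comp_linearMap M.toLinearMap

/-- A set is intervally thin in the vertical direction when its horizontal projection has dense
complement. -/
lemma thin_of_dense (hd : Dense (Prod.fst '' E)ᶜ) : IntervallyThin E (0, 1) := by
  rintro ⟨x1, x2⟩ ⟨y1, y2⟩ ⟨t, ht⟩ ε hε
  have h1 : x1 = y1 := by
    have := congrArg Prod.fst ht
    simpa [sub_eq_zero] using this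
  subst h1
  obtain ⟨u, hu, hux⟩ := hd.exists_dist_lt x1 hε
  refine ⟨(u, x2), ?_, (u, y2), ?_, ?_⟩
  · rw [Metric.mem_ball, Prod.dist_eq, dist_self]
    exact max_lt (by rwa [dist_comm]) hε
  · rw [Metric.mem_ball, Prod.dist_eq, dist_self]
    exact max_lt (by rwa [dist_comm]) hε
  · rw [Set.disjoint_left]
    rintro z hz hzE
    refine hu ⟨z, hzE, ?_⟩
    obtain ⟨a, b, _, _, hab, rfl⟩ := hz
    simp only [Prod.smul_mk, Prod.mk_add_mk, smul_eq_mul]
    rw [← add_mul, hab, one_mul]

lemma thin_of_dense' (hd : Dense (Prod.snd '' E)ᶜ) : IntervallyThin E (1, 0) := by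
  rintro ⟨x1, x2⟩ ⟨y1, y2⟩ ⟨t, ht⟩ ε hε
  have h1 : x2 = y2 := by
    have := congrArg Prod.snd ht
    simpa [sub_eq_zero] using this
  subst h1
  obtain ⟨u, hu, hux⟩ := hd.exists_dist_lt x2 hε
  refine ⟨(x1, u), ?_, (y1, u), ?_, ?_⟩
  · rw [Metric.mem_ball, Prod.dist_eq, dist_self]
    exact max_lt hε (by rwa [dist_comm])
  · rw [Metric.mem_ball, Prod.dist_eq, dist_self]
    exact max_lt hε (by rwa [dist_comm])
  · rw [Set.disjoint_left]
    rintro z hz hzE
    refine hu ⟨z, hzE, ?_⟩
    obtain ⟨a, b, _, _, hab, rfl⟩ := hz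
    simp only [Prod.smul_mk, Prod.mk_add_mk, smul_eq_mul]
    rw [← add_mul, hab, one_mul]

/-- Products of two closed sets with empty interior, one of which is Lebesgue null. -/
theorem cRemovable_prod {A B : Set ℝ} (hA : IsClosed A) (hB : IsClosed B)
    (hA' : interior A = ∅) (hB' : interior B = ∅) (hnull : volume A = 0 ∨ volume B = 0) :
    CRemovable (A ×ˢ B) := by
  have hfst : Dense (Prod.fst '' (A ×ˢ B))ᶜ :=
    (interior_eq_empty_iff_dense_compl.1 hA').mono (compl_subset_compl.2 (fst_image_prod_subset A B))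
  have hsnd : Dense (Prod.snd '' (A ×ˢ B))ᶜ :=
    (interior_eq_empty_iff_dense_compl.1 hB').mono (compl_subset_compl.2 (snd_image_prod_subset A B))
  rcases hnull with h | h
  · refine cRemovable_of_null_proj (hA.prod hB) (0, 1) (1, 0) (by norm_num) ?_ (thin_of_dense' hsnd)
    refine measure_mono_null ?_ (show volume ((fun x : ℝ => -x) '' A) = 0 by
      rw [Set.image_neg_eq_neg, Measure.measure_neg, h])
    rintro _ ⟨z, hz, rfl⟩
    exact ⟨z.1, hz.1, by simp⟩
  · refine cRemovable_of_null_proj (hA.prod hB) (1, 0) (0, 1) (by norm_num) ?_ (thin_of_dense hfst)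
    refine measure_mono_null ?_ h
    rintro _ ⟨z, hz, rfl⟩
    simpa using hz.2

lemma volume_cantorSet : volume cantorSet = 0 := by
  have hlt : volume cantorSet < ⊤ := isCompact_cantorSet.measure_lt_top
  have h1 : volume ((fun x : ℝ => x / 3) '' cantorSet) = ENNReal.ofReal (1 / 3) * volume cantorSet := by
    have : (fun x : ℝ => x / 3) '' cantorSet = (1 / 3 : ℝ) • cantorSet := by
      rw [← image_smul]
      refine image_congr fun x _ => ?_
      rw [smul_eq_mul]; ring
    rw [this, Measure.addHaar_smul]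
    congr 1
    rw [Module.finrank_self, pow_one, abs_of_pos (by norm_num)]
  have h2 : volume ((fun x : ℝ => (2 + x) / 3) '' cantorSet)
      = ENNReal.ofReal (1 / 3) * volume cantorSet := by
    have : (fun x : ℝ => (2 + x) / 3) '' cantorSet
        = (fun x : ℝ => 2 / 3 + x) '' ((fun x : ℝ => x / 3) '' cantorSet) := by
      rw [image_image]
      refine image_congr fun x _ => ?_
      ring
    rw [this, ← h1]
    simp
  have h3 : volume cantorSet ≤ ENNReal.ofReal (2 / 3) * volume cantorSet := by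
    calc volume cantorSet = volume ((fun x : ℝ => x / 3) '' cantorSet ∪
          (fun x : ℝ => (2 + x) / 3) '' cantorSet) := by
          conv_lhs => rw [cantorSet_eq_union_halves]
      _ ≤ _ := measure_union_le _ _
      _ = ENNReal.ofReal (2 / 3) * volume cantorSet := by
          rw [h1, h2, ← add_mul, ← ENNReal.ofReal_add (by norm_num) (by norm_num)]
          norm_num
  by_contra hne
  have h4 : ENNReal.ofReal (2 / 3) * volume cantorSet < 1 * volume cantorSet := by
    refine ENNReal.mul_lt_mul_left hne hlt.ne ?_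
    rw [ENNReal.ofReal_lt_one]
    norm_num
  rw [one_mul] at h4
  exact absurd h3 (not_le.2 h4)

/-- The Cantor dust is c-removable. -/
theorem cRemovable_cantorDust : CRemovable (cantorSet ×ˢ cantorSet) :=
  cRemovable_prod isClosed_cantorSet isClosed_cantorSet
    (Measure.interior_eq_empty_of_null volume_cantorSet)
    (Measure.interior_eq_empty_of_null volume_cantorSet) (Or.inl volume_cantorSet)

end Pool.Agent.R222.Dust
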